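import Pool.Agent.H25.ADJ.Det
import Pool.Agent.H20.MIC.UniD
import Pool.Agent.H82.STAT.Jbw
import Pool.Agent.H39.BFL.Prob

/-!
# Labels of neighbouring places of a cell agree

`adj`: the visible labels at two places of the grid with a common refinement agree on the natural
box of the first place at the exact time, also on boxes dilated by `exp (C₀ z)`.
-/

set_option autoImplicit false

namespace Pool.ADJ

open Finset Real MvPolynomial
open Pool.Agent.H49.Ent Pool.Agent.H32.Dense Pool.STK Pool.STAT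
open Pool.BFL (Pb)
open Pool.MIC.UniD (Ful uni2)

variable {D : NDat2} {n K J a₀ w₀ z M : ℕ} {lam gam : ℕ → ℝ} {κ C₁ : ℝ} {q : D.Ω → ℝ}

theorem c_rad (h : D.Ok2 n K J a₀ w₀ z M lam gam κ C₁ q) {j : ℕ} (hj : j ≤ M) {i i' : ℕ}
    (hi : i ≤ i') (hi' : i' ≤ M) : Det q (D.c i' j) (D.c i j) := by
  induction i', hi using Nat.le_induction with
  | base => exact fun _ _ _ _ e => e
  | succ m hm ih =>
    intro ω ω' a b e
    exact ih (by omega) ω ω' a b (h.c_i m (by omega) j hj ω ω' a b e)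

theorem c_diag (h : D.Ok2 n K J a₀ w₀ z M lam gam κ C₁ q) {i j : ℕ} (r : ℕ) (hi : i + r ≤ M)
    (hj : j + r ≤ M) : Det q (D.c (i + r) (j + r)) (D.c i j) := by
  induction r with
  | zero => exact fun _ _ _ _ e => e
  | succ r ih =>
    intro ω ω' a b e
    exact ih (by omega) (by omega) ω ω' a b
      (h.c_ij (i + r) (by omega) (j + r) (by omega) ω ω' a b e)

/-- A context determines the contexts at the coarser places. -/
theorem c_det (h : D.Ok2 n K J a₀ w₀ z M lam gam κ C₁ q) {i j i' j' : ℕ} (hj : j ≤ j')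
    (hi : i + (j' - j) ≤ i') (hi' : i' ≤ M) (hj' : j' ≤ M) : Det q (D.c i' j') (D.c i j) := by
  intro ω ω' a b e
  have h1 := c_rad h hj' hi hi' ω ω' a b e
  have h2 := c_diag h (i := i) (j := j) (j' - j) (by omega) (by omega)
  rw [show j + (j' - j) = j' by omega] at h2
  exact h2 ω ω' a b h1

/-- The precisions grow towards a refinement, at most by a constant. -/
theorem g_ref (h : D.Ok2 n K J a₀ w₀ z M lam gam κ C₁ q) {i j i' j' N l : ℕ}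
    (hj : j ≤ j') (hi : i + (j' - j) ≤ i') (hN : i' ≤ i + N) (hi' : i' ≤ M) (hj' : j' ≤ M)
    (hl : 1 ≤ l) (hln : l ≤ n) :
    (D.g i j l : ℝ) ≤ D.g i' j' l + 2 * C₁ * z ∧
      (D.g i' j' l : ℝ) ≤ D.g i j l + ((lam l + gam l) * N + 2 * C₁) * z := by
  have h1 := abs_le.1 (h.hom i (by omega) j (by omega) l hl hln)
  have h2 := abs_le.1 (h.hom i' hi' j' hj' l hl hln)
  have hz : (0 : ℝ) ≤ z := Nat.cast_nonneg z
  have hlam := h.lam_ge l
  have hgam := h.gam_ge l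
  have e1 : (i : ℝ) ≤ i' := by exact_mod_cast (by omega : i ≤ i')
  have e2 : (j : ℝ) ≤ j' := by exact_mod_cast hj
  have e3 : (i' : ℝ) ≤ i + N := by exact_mod_cast hN
  have e4 : (j' : ℝ) ≤ j + N := by exact_mod_cast (by omega : j' ≤ j + N)
  have f1 : lam l * i ≤ lam l * i' := mul_le_mul_of_nonneg_left e1 (by linarith)
  have f2 : gam l * j ≤ gam l * j' := mul_le_mul_of_nonneg_left e2 hgam
  have f3 : lam l * i' ≤ lam l * (i + N) := mul_le_mul_of_nonneg_left e3 (by linarith)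
  have f4 : gam l * j' ≤ gam l * (j + N) := mul_le_mul_of_nonneg_left e4 hgam
  have g1 : (lam l * i + gam l * j) * z ≤ (lam l * i' + gam l * j') * z :=
    mul_le_mul_of_nonneg_right (by linarith) hz
  have g2 : (lam l * i' + gam l * j') * z ≤
      (lam l * i + gam l * j + (lam l + gam l) * N) * z :=
    mul_le_mul_of_nonneg_right (by linarith) hz
  constructor
  · linarith only [h1.1, h1.2, h2.1, h2.2, g1]
  · linarith only [h1.1, h1.2, h2.1, h2.2, g2]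

/-- **Labels of two places with a common refinement.** -/
theorem adj (n K N : ℕ) (lam gam : ℕ → ℝ) (C₁ C₀ : ℝ) (hC₁ : 1 ≤ C₁) (hC₀ : 0 ≤ C₀)
    (hlam : ∀ l, 1 ≤ lam l) (hgam : ∀ l, 0 ≤ gam l) : ∃ C : ℝ, 1 ≤ C ∧
    ∀ η : ℝ, 0 < η → ∃ (κ₀ : ℝ) (z₀ : ℕ), 0 < κ₀ ∧
    ∀ (J a₀ w₀ z M : ℕ) (κ : ℝ) (D : NDat2) (q : D.Ω → ℝ), z₀ ≤ z → κ ≤ κ₀ →
      D.Ok2 n K J a₀ w₀ z M lam gam κ C₁ q →
    ∀ i j i' j' i₂ j₂ : ℕ, j ≤ j₂ → j' ≤ j₂ → i + (j₂ - j) ≤ i₂ → i' + (j₂ - j') ≤ i₂ →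
      i₂ ≤ i + N → i₂ ≤ i' + N → i₂ + 1 ≤ M → j₂ ≤ M →
      Pb q (fun ω => ¬ ∀ l, 1 ≤ l → l ≤ n → ∀ b : ℕ → ℝ, b 0 = D.X ω 0 →
        (∀ k, 1 ≤ k → k < l →
          |b k - eval b (D.Ψ i j ω k)| ≤ Real.exp (C₀ * z) / 2 ^ D.g i j k) →
        |eval b (D.Ψ i j ω l) - eval b (D.Ψ i' j' ω l)| ≤
          Real.exp (C * z) / 2 ^ min (D.g i j l) (D.g i' j' l)) ≤ η := by
  obtain ⟨S, hS⟩ : ∃ S : ℝ, S = ∑ l ∈ range (n + 1), (lam l + gam l) := ⟨_, rfl⟩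
  have hSl : ∀ l ≤ n, lam l + gam l ≤ S := by
    intro l hl
    rw [hS]
    exact Finset.single_le_sum (f := fun l => lam l + gam l)
      (fun l _ => by have := hlam l; have := hgam l; linarith) (mem_range.2 (by omega))
  have hS0 : 0 ≤ S := by
    rw [hS]
    exact Finset.sum_nonneg fun l _ => by have := hlam l; have := hgam l; linarith
  have hN0 : (0 : ℝ) ≤ N := Nat.cast_nonneg N
  obtain ⟨L, hL⟩ : ∃ L : ℝ, L = S * N + 2 * C₁ + 1 := ⟨_, rfl⟩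
  have hSN : 0 ≤ S * N := mul_nonneg hS0 hN0
  have hL1 : 1 ≤ L := by rw [hL]; linarith
  obtain ⟨C, hC, hdet⟩ := adj_det n K C₀ L hC₀ hL1
  refine ⟨C, hC, fun η hη => ?_⟩
  obtain ⟨η', hη'⟩ : ∃ η' : ℝ, η' = min 1 (η / (2 * (n + 1))) := ⟨_, rfl⟩
  have hη0 : 0 < η' := by rw [hη']; exact lt_min one_pos (by positivity)
  have hη1 : η' ≤ 1 := by rw [hη']; exact min_le_left _ _
  have hη2 : 2 * (n + 1) * η' ≤ η := by
    have h1 : η' ≤ η / (2 * (n + 1)) := by rw [hη']; exact min_le_right _ _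
    rw [le_div_iff₀ (by positivity)] at h1
    linarith
  obtain ⟨κ₀, z₀, hκ₀, huni⟩ := uni2 n K 1 1 η' zero_le_one one_pos le_rfl hη0 hη1
  refine ⟨κ₀, max z₀ 1, hκ₀, ?_⟩
  intro J a₀ w₀ z M κ D q hz hκ hO i j i' j' i₂ j₂ hj hj' hi hi' hN hN' hiM hjM
  have hz0 : z₀ ≤ z := (le_max_left _ _).trans hz
  have hz1 : 1 ≤ z := (le_max_right _ _).trans hz
  have hzr : (1 : ℝ) ≤ z := by exact_mod_cast hz1
  have hq := hO.isLaw
  have cd := c_det hO hj hi (by omega) hjM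
  have cd' := c_det hO hj' hi' (by omega) hjM
  have full : ∀ (u v : ℕ), u ≤ M → v ≤ M → Det q (D.c i₂ j₂) (D.c u v) →
      Ful D n i₂ j₂ z (κ₀ * z) q (fun ω => (D.s u v ω, (D.c i₂ j₂ ω, D.T ω))) := by
    intro u v hu hv hd
    unfold Ful
    have h1 := hO.full i₂ (by omega) j₂ hjM 1 hiM
    rw [one_mul] at h1
    have h2 : CH q (D.vd n i₂ j₂ z) (fun ω => (D.c i₂ j₂ ω, D.T ω)) ≤
        CH q (D.vd n i₂ j₂ z) (fun ω => (D.s u v ω, (D.c i₂ j₂ ω, D.T ω))) := by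
      refine CH_mono_cond hq.nonneg ?_
      intro ω ω' a b e
      have e1 := (Prod.ext_iff.1 e).1
      have e2 := (Prod.ext_iff.1 e).2
      have e3 := hO.s_c u hu v hv ω ω' a b (Prod.ext_iff.2 ⟨hd ω ω' a b e1, e2⟩)
      exact Prod.ext_iff.2 ⟨e3, e⟩
    have h3 : κ * z ≤ κ₀ * z := mul_le_mul_of_nonneg_right hκ (by linarith)
    have h4 : ((1 : ℕ) : ℝ) * (z : ℝ) = z := by rw [Nat.cast_one, one_mul]
    rw [h4] at h1
    have h5 : ((n - 1 : ℕ) : ℝ) * (z * Real.log 2) = ((n - 1 : ℕ) : ℝ) * z * Real.log 2 := by ring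
    rw [h5]
    linarith only [h1, h2, h3]
  have hu : ∀ (u v : ℕ), u ≤ M → v ≤ M → Det q (D.c i₂ j₂) (D.c u v) → ∀ l, 1 ≤ l → l ≤ n →
      Pb q (fun ω => ¬ ∀ b : ℕ → ℝ, b 0 = D.X ω 0 →
        (∀ k, 1 ≤ k → k < l → |b k - eval b (D.Ψ i₂ j₂ ω k)| ≤ 1 / 2 ^ D.g i₂ j₂ k) →
        |eval b (D.Ψ u v ω l) - eval b (D.Ψ i₂ j₂ ω l)| ≤
          Real.exp (1 * z) / 2 ^ (min (D.g u v l) (D.g i₂ j₂ l))) ≤ η' := fun u v hu hv hd l hl hln =>
    huni J a₀ w₀ z M lam gam κ C₁ D q hz0 hO u v i₂ j₂ z hu hv (by omega) hjM le_rfl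
      (full u v hu hv hd) l hl hln
  -- the bad events
  obtain ⟨A, hA⟩ : ∃ A : ℕ → D.Ω → Prop, ∀ l ω, A l ω ↔ (¬ ∀ b : ℕ → ℝ, b 0 = D.X ω 0 →
        (∀ k, 1 ≤ k → k < l → |b k - eval b (D.Ψ i₂ j₂ ω k)| ≤ 1 / 2 ^ D.g i₂ j₂ k) →
        |eval b (D.Ψ i j ω l) - eval b (D.Ψ i₂ j₂ ω l)| ≤
          Real.exp (1 * z) / 2 ^ (min (D.g i j l) (D.g i₂ j₂ l))) := ⟨_, fun _ _ => Iff.rfl⟩
  obtain ⟨A', hA'⟩ : ∃ A' : ℕ → D.Ω → Prop, ∀ l ω, A' l ω ↔ (¬ ∀ b : ℕ → ℝ, b 0 = D.X ω 0 →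
        (∀ k, 1 ≤ k → k < l → |b k - eval b (D.Ψ i₂ j₂ ω k)| ≤ 1 / 2 ^ D.g i₂ j₂ k) →
        |eval b (D.Ψ i' j' ω l) - eval b (D.Ψ i₂ j₂ ω l)| ≤
          Real.exp (1 * z) / 2 ^ (min (D.g i' j' l) (D.g i₂ j₂ l))) := ⟨_, fun _ _ => Iff.rfl⟩
  have hP : ∀ l ∈ Icc 1 n, Pb q (A l) ≤ η' := by
    intro l hl
    rw [mem_Icc] at hl
    refine le_trans (Pool.MIC.Frm.Pb_supp hq.nonneg fun ω _ h => (hA l ω).1 h)
      (hu i j (by omega) (by omega) cd l hl.1 hl.2)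
  have hP' : ∀ l ∈ Icc 1 n, Pb q (A' l) ≤ η' := by
    intro l hl
    rw [mem_Icc] at hl
    refine le_trans (Pool.MIC.Frm.Pb_supp hq.nonneg fun ω _ h => (hA' l ω).1 h)
      (hu i' j' (by omega) (by omega) cd' l hl.1 hl.2)
  have hs := JBW.Pb_exists_le hq.nonneg (Icc 1 n) A hP
  have hs' := JBW.Pb_exists_le hq.nonneg (Icc 1 n) A' hP'
  have hor := Pool.Agent.H39.BFL.Pb_or_le hq.nonneg hs hs'
  refine le_trans (Pool.MIC.Frm.Pb_supp hq.nonneg fun ω hω hb => ?_) (hor.trans ?_)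
  · by_contra hno
    rw [not_or] at hno
    obtain ⟨n1, n2⟩ := hno
    apply hb
    have g1 : ∀ l, 1 ≤ l → l ≤ n → ∀ b : ℕ → ℝ, b 0 = D.X ω 0 →
        (∀ k, 1 ≤ k → k < l → |b k - eval b (D.Ψ i₂ j₂ ω k)| ≤ 1 / 2 ^ D.g i₂ j₂ k) →
        |eval b (D.Ψ i j ω l) - eval b (D.Ψ i₂ j₂ ω l)| ≤
          Real.exp (1 * z) / 2 ^ (min (D.g i j l) (D.g i₂ j₂ l)) := by
      intro l hl hln
      by_contra hc
      exact n1 ⟨l, mem_Icc.2 ⟨hl, hln⟩, (hA l ω).2 hc⟩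
    have g2 : ∀ l, 1 ≤ l → l ≤ n → ∀ b : ℕ → ℝ, b 0 = D.X ω 0 →
        (∀ k, 1 ≤ k → k < l → |b k - eval b (D.Ψ i₂ j₂ ω k)| ≤ 1 / 2 ^ D.g i₂ j₂ k) →
        |eval b (D.Ψ i' j' ω l) - eval b (D.Ψ i₂ j₂ ω l)| ≤
          Real.exp (1 * z) / 2 ^ (min (D.g i' j' l) (D.g i₂ j₂ l)) := by
      intro l hl hln
      by_contra hc
      exact n2 ⟨l, mem_Icc.2 ⟨hl, hln⟩, (hA' l ω).2 hc⟩
    have hmin : ∀ a c : ℕ, (a : ℝ) ≤ c + 2 * C₁ * z →
        Real.exp (1 * z) / 2 ^ min a c ≤ Real.exp (L * z) / 2 ^ a := by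
      intro a c hac
      have e1 : 1 / (2 : ℝ) ^ min a c ≤ Real.exp (2 * C₁ * z) / 2 ^ a := by
        refine unit_le (by positivity) ?_
        rcases Nat.le_total a c with hac' | hac'
        · rw [min_eq_left hac']
          have : 0 ≤ 2 * C₁ * (z : ℝ) := by positivity
          linarith
        · rw [min_eq_right hac']
          exact hac
      have e2 : Real.exp (1 * z) * Real.exp (2 * C₁ * z) ≤ Real.exp (L * z) := by
        rw [← Real.exp_add]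
        refine Real.exp_le_exp.2 ?_
        rw [hL]
        nlinarith
      rw [div_eq_mul_one_div]
      refine (mul_le_mul_of_nonneg_left e1 (Real.exp_pos _).le).trans ?_
      rw [← mul_div_assoc]
      exact div_le_div_of_nonneg_right e2 (by positivity)
    have hgp : ∀ k, 1 ≤ k → k ≤ n → (D.g i₂ j₂ k : ℝ) ≤ D.g i j k + L * z := by
      intro k hk hkn
      have e1 := (g_ref hO hj hi hN (by omega) hjM hk hkn).2
      have e2 : ((lam k + gam k) * N + 2 * C₁) * (z : ℝ) ≤ L * z := by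
        refine mul_le_mul_of_nonneg_right ?_ (by linarith)
        have e3 : (lam k + gam k) * N ≤ S * N := mul_le_mul_of_nonneg_right (hSl k hkn) hN0
        rw [hL]
        linarith
      linarith only [e1, e2]
    have main := hdet z (D.g i j) (D.g i' j') (D.g i₂ j₂) (D.Ψ i j ω) (D.Ψ i' j' ω)
      (D.Ψ i₂ j₂ ω) (D.X ω 0) hz1 (hO.G_tri _ _ _) (hO.G_tri _ _ _) (hO.G_tri _ _ _)
      (fun k _ => hO.G_deg _ _ _ _) (fun k _ => hO.G_deg _ _ _ _) (fun k _ => hO.G_deg _ _ _ _)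
      hgp
      (fun l hl hln b hb0 hb1 => (g1 l hl hln b hb0 hb1).trans
        (hmin _ _ (g_ref hO hj hi hN (by omega) hjM hl hln).1))
      (fun l hl hln b hb0 hb1 => (g2 l hl hln b hb0 hb1).trans
        (hmin _ _ (g_ref hO hj' hi' hN' (by omega) hjM hl hln).1))
    intro l hl hln b hb0 hb1
    exact (main l hl hln b hb0 hb1).2.2
  · have hc : ((Icc 1 n).card : ℝ) ≤ n + 1 := by
      rw [Nat.card_Icc]
      push_cast
      have : ((n + 1 - 1 : ℕ) : ℝ) = n := by simp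
      linarith
    have h1 : ((Icc 1 n).card : ℝ) * η' ≤ (n + 1) * η' := mul_le_mul_of_nonneg_right hc hη0.le
    linarith only [h1, hη2]

end Pool.ADJ
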