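import Pool.Agent.H20.MIC.Frm

/-!
# Two labels over a common refinement: geometry

Two triangular systems which agree with a third one on the natural box of the third one at the
exact time agree with each other on larger natural boxes of the first one.
-/

set_option autoImplicit false

namespace Pool.ADJ

open Finset Real MvPolynomial
open Pool.STAT
open Pool.MIC.Frm (nat grow_fr)

/-- The polynomial at the time `t`. -/
noncomputable def slc (t : ℝ) (F : PN) : PN := bind₁ (Function.update X 0 (C t)) F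

theorem eval_slc (t : ℝ) (F : PN) (b : ℕ → ℝ) :
    eval b (slc t F) = eval (Function.update b 0 t) F := by
  unfold slc
  rw [AdxRow.evl_bnd]
  congr 2
  funext k
  by_cases hk : k = 0
  · subst hk
    simp
  · rw [Function.update_of_ne hk, Function.update_of_ne hk, eval_X]

theorem eval_slc_self {t : ℝ} {b : ℕ → ℝ} (hb : b 0 = t) (F : PN) :
    eval b (slc t F) = eval b F := by
  rw [eval_slc, ← hb, Function.update_eq_self]

theorem vars_slc (t : ℝ) {F : PN} {m : ℕ} (hF : F.vars ⊆ range m) :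
    (slc t F).vars ⊆ range m := by
  refine AdxRow.vars_bnd (m := m) hF fun k hk => ?_
  by_cases h0 : k = 0
  · subst h0
    rw [Function.update_self, vars_C]
    exact Finset.empty_subset _
  · rw [Function.update_of_ne h0, vars_X]
    exact Finset.singleton_subset_iff.mpr (mem_range.mpr hk)

theorem deg_slc (t : ℝ) {F : PN} {K : ℕ} (hF : F.totalDegree ≤ K) :
    (slc t F).totalDegree ≤ K := by
  refine (Dgb.deg_bind (B := 1) fun k _ => ?_).trans (by omega)
  by_cases h0 : k = 0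
  · subst h0
    rw [Function.update_self, totalDegree_C]
    exact Nat.zero_le _
  · rw [Function.update_of_ne h0, totalDegree_X]

/-- The system at the time `t`. -/
noncomputable def slS (t : ℝ) (Φ : ℕ → PN) (i : ℕ) : PN := if i = 0 then C t else slc t (Φ i)

theorem tri_slS (t : ℝ) {Φ : ℕ → PN} (h : TriN Φ) : TriN (slS t Φ) := by
  intro i
  unfold slS
  split_ifs with h0
  · rw [vars_C]
    exact Finset.empty_subset _
  · exact vars_slc t (h i)

theorem deg_slS (t : ℝ) {Φ : ℕ → PN} {K i : ℕ} (h : (Φ i).totalDegree ≤ K) :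
    (slS t Φ i).totalDegree ≤ K := by
  unfold slS
  split_ifs with h0
  · rw [totalDegree_C]
    exact Nat.zero_le _
  · exact deg_slc t h

/-- **Growth at the exact time.** -/
theorem grow_sl (n K : ℕ) : ∃ (G : ℝ) (E : ℕ), 1 ≤ G ∧ ∀ (g : ℕ → ℕ) (Φ : ℕ → PN) (F : PN)
    (S B t : ℝ), TriN Φ → (∀ i < n, (Φ i).totalDegree ≤ K) → 1 ≤ B → F.vars ⊆ range n →
    F.totalDegree ≤ K →
    (∀ b : ℕ → ℝ, b 0 = t → (∀ i, 1 ≤ i → i < n → |b i - eval b (Φ i)| ≤ 1 / 2 ^ g i) →
      |eval b F| ≤ S) →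
    ∀ b : ℕ → ℝ, b 0 = t → (∀ i, 1 ≤ i → i < n → |b i - eval b (Φ i)| ≤ B / 2 ^ g i) →
      |eval b F| ≤ G * B ^ E * S := by
  obtain ⟨G, E, hG, h⟩ := grow_fr n K
  refine ⟨G, E, hG, fun g Φ F S B t hΦ hK hB hv hF hS b hb0 hb => ?_⟩
  rw [← eval_slc_self hb0 F]
  refine h g (slS t Φ) (slc t F) S B (tri_slS t hΦ) (fun i hi => deg_slS t (hK i hi)) hB
    (vars_slc t hv) (deg_slc t hF) (fun b' hb' => ?_) b (fun i hi => ?_)
  · rw [eval_slc]
    refine hS _ (Function.update_self _ _ _) fun i hi hin => ?_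
    have h1 := hb' i hin
    unfold nat slS at h1
    rw [if_neg (by omega), eval_slc, abs_mul, abs_of_pos (by positivity)] at h1
    rw [Function.update_of_ne (by omega), le_div_iff₀ (by positivity), mul_comm]
    exact h1
  · unfold nat slS
    by_cases hi0 : i = 0
    · subst hi0
      rw [if_pos rfl, eval_C, hb0, sub_self, mul_zero, abs_zero]
      linarith
    · have h1 := hb i (by omega) hi
      rw [if_neg hi0, eval_slc_self hb0, abs_mul, abs_of_pos (by positivity)]
      rw [le_div_iff₀ (by positivity), mul_comm] at h1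
      exact h1

theorem unit_le {a b : ℕ} {c : ℝ} (hc : 0 ≤ c) (h : (a : ℝ) ≤ b + c) :
    1 / (2 : ℝ) ^ b ≤ Real.exp c / 2 ^ a := by
  have hl : Real.log 2 ≤ 1 := by
    have := Real.log_two_lt_d9
    linarith
  have hl0 : 0 ≤ Real.log 2 := Real.log_nonneg (by norm_num)
  have e : ∀ m : ℕ, (2 : ℝ) ^ m = Real.exp (m * Real.log 2) := fun m => by
    rw [Real.exp_nat_mul, Real.exp_log (by norm_num)]
  rw [div_le_div_iff₀ (by positivity) (by positivity), one_mul, e a, e b, ← Real.exp_add]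
  refine Real.exp_le_exp.2 ?_
  have h1 : (a : ℝ) * Real.log 2 ≤ (b + c) * Real.log 2 := mul_le_mul_of_nonneg_right h hl0
  have h2 : c * Real.log 2 ≤ c * 1 := mul_le_mul_of_nonneg_left hl hc
  linarith

theorem two_exp {x c z : ℝ} (hz : 1 ≤ z) (h : x ≤ c) :
    Real.exp (x * z) + Real.exp (x * z) ≤ Real.exp ((c + 1) * z) := by
  have e1 : Real.exp ((c + 1) * z) = Real.exp (c * z) * Real.exp z := by
    rw [← Real.exp_add]
    congr 1
    ring
  have e2 : (2 : ℝ) ≤ Real.exp z := by linarith [Real.add_one_le_exp z]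
  have e3 : Real.exp (x * z) ≤ Real.exp (c * z) := Real.exp_le_exp.2 (by nlinarith)
  rw [e1]
  nlinarith [Real.exp_pos (x * z)]

/-- **Two systems and a common refinement.** -/
theorem adj_det (n K : ℕ) (C₀ L : ℝ) (hC₀ : 0 ≤ C₀) (hL : 1 ≤ L) : ∃ C : ℝ, 1 ≤ C ∧
    ∀ (z : ℕ) (g g' gp : ℕ → ℕ) (Φ Φ' Φp : ℕ → PN) (t : ℝ), 1 ≤ z → TriN Φ → TriN Φ' →
      TriN Φp → (∀ k ≤ n, (Φ k).totalDegree ≤ K) → (∀ k ≤ n, (Φ' k).totalDegree ≤ K) →
      (∀ k ≤ n, (Φp k).totalDegree ≤ K) →
      (∀ k, 1 ≤ k → k ≤ n → (gp k : ℝ) ≤ g k + L * z) →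
      (∀ l, 1 ≤ l → l ≤ n → ∀ b : ℕ → ℝ, b 0 = t →
        (∀ k, 1 ≤ k → k < l → |b k - eval b (Φp k)| ≤ 1 / 2 ^ gp k) →
        |eval b (Φ l) - eval b (Φp l)| ≤ Real.exp (L * z) / 2 ^ g l) →
      (∀ l, 1 ≤ l → l ≤ n → ∀ b : ℕ → ℝ, b 0 = t →
        (∀ k, 1 ≤ k → k < l → |b k - eval b (Φp k)| ≤ 1 / 2 ^ gp k) →
        |eval b (Φ' l) - eval b (Φp l)| ≤ Real.exp (L * z) / 2 ^ g' l) →
      ∀ l, 1 ≤ l → l ≤ n → ∀ b : ℕ → ℝ, b 0 = t →
        (∀ k, 1 ≤ k → k < l → |b k - eval b (Φ k)| ≤ Real.exp (C₀ * z) / 2 ^ g k) →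
        (∀ k, 1 ≤ k → k < l → |b k - eval b (Φp k)| ≤ Real.exp (C * z) / 2 ^ gp k) ∧
          |eval b (Φ l) - eval b (Φp l)| ≤ Real.exp (C * z) / 2 ^ g l ∧
          |eval b (Φ l) - eval b (Φ' l)| ≤ Real.exp (C * z) / 2 ^ min (g l) (g' l) := by
  have main : ∀ m ≤ n, ∃ C : ℝ, 1 ≤ C ∧
    ∀ (z : ℕ) (g g' gp : ℕ → ℕ) (Φ Φ' Φp : ℕ → PN) (t : ℝ), 1 ≤ z → TriN Φ → TriN Φ' →
      TriN Φp → (∀ k ≤ n, (Φ k).totalDegree ≤ K) → (∀ k ≤ n, (Φ' k).totalDegree ≤ K) →
      (∀ k ≤ n, (Φp k).totalDegree ≤ K) →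
      (∀ k, 1 ≤ k → k ≤ n → (gp k : ℝ) ≤ g k + L * z) →
      (∀ l, 1 ≤ l → l ≤ n → ∀ b : ℕ → ℝ, b 0 = t →
        (∀ k, 1 ≤ k → k < l → |b k - eval b (Φp k)| ≤ 1 / 2 ^ gp k) →
        |eval b (Φ l) - eval b (Φp l)| ≤ Real.exp (L * z) / 2 ^ g l) →
      (∀ l, 1 ≤ l → l ≤ n → ∀ b : ℕ → ℝ, b 0 = t →
        (∀ k, 1 ≤ k → k < l → |b k - eval b (Φp k)| ≤ 1 / 2 ^ gp k) →
        |eval b (Φ' l) - eval b (Φp l)| ≤ Real.exp (L * z) / 2 ^ g' l) →
      ∀ l, 1 ≤ l → l ≤ m → ∀ b : ℕ → ℝ, b 0 = t →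
        (∀ k, 1 ≤ k → k < l → |b k - eval b (Φ k)| ≤ Real.exp (C₀ * z) / 2 ^ g k) →
        (∀ k, 1 ≤ k → k < l → |b k - eval b (Φp k)| ≤ Real.exp (C * z) / 2 ^ gp k) ∧
          |eval b (Φ l) - eval b (Φp l)| ≤ Real.exp (C * z) / 2 ^ g l ∧
          |eval b (Φ l) - eval b (Φ' l)| ≤ Real.exp (C * z) / 2 ^ min (g l) (g' l) := by
    intro m
    induction m with
    | zero =>
      intro _
      refine ⟨1, le_rfl, ?_⟩
      intro z g g' gp Φ Φ' Φp t _ _ _ _ _ _ _ _ _ _ l hl hl0
      omega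
    | succ m ih =>
      intro hm
      obtain ⟨Ci, hCi, hI⟩ := ih (by omega)
      obtain ⟨G, E, hG, hGr⟩ := grow_sl (m + 1) K
      obtain ⟨A, hA⟩ : ∃ A : ℝ, A = C₀ + Ci + L + 1 := ⟨_, rfl⟩
      obtain ⟨Cf, hCf⟩ : ∃ Cf : ℝ, Cf = A + G + A * E + L + 1 := ⟨_, rfl⟩
      have hE0 : (0 : ℝ) ≤ E := Nat.cast_nonneg E
      have hA1 : 1 ≤ A := by rw [hA]; linarith
      have hAE : 0 ≤ A * E := by positivity
      refine ⟨Ci + Cf, by rw [hCf]; linarith, ?_⟩
      intro z g g' gp Φ Φ' Φp t hz hΦ hΦ' hΦp dΦ dΦ' dΦp hg h1 h2 l hl hlm b hb0 hb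
      have hz1 : (1 : ℝ) ≤ z := by exact_mod_cast hz
      have up : ∀ x : ℝ, x ≤ Ci + Cf → Real.exp (x * z) ≤ Real.exp ((Ci + Cf) * z) :=
        fun x hx => Real.exp_le_exp.2 (mul_le_mul_of_nonneg_right hx (by linarith))
      rcases Nat.lt_or_ge m l with hml | hml
      swap
      · obtain ⟨a1, a2, a3⟩ := hI z g g' gp Φ Φ' Φp t hz hΦ hΦ' hΦp dΦ dΦ' dΦp hg h1 h2 l hl hml b
          hb0 hb
        have := up Ci (by rw [hCf]; linarith)
        exact ⟨fun k hk hkl => (a1 k hk hkl).trans (div_le_div_of_nonneg_right this (by positivity)),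
          a2.trans (div_le_div_of_nonneg_right this (by positivity)),
          a3.trans (div_le_div_of_nonneg_right this (by positivity))⟩
      obtain rfl : l = m + 1 := by omega
      -- the box
      have hbox : ∀ k, 1 ≤ k → k < m + 1 → |b k - eval b (Φp k)| ≤ Real.exp (A * z) / 2 ^ gp k := by
        intro k hk hkm
        have a0 := hb k hk hkm
        obtain ⟨-, a2, -⟩ := hI z g g' gp Φ Φ' Φp t hz hΦ hΦ' hΦp dΦ dΦ' dΦp hg h1 h2 k hk (by omega)
          b hb0 fun k' hk' hk'k => hb k' hk' (by omega)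
        have a3 := unit_le (c := L * z) (by positivity) (hg k hk (by omega))
        have a4 : |b k - eval b (Φp k)| ≤ Real.exp (C₀ * z) / 2 ^ g k +
            Real.exp (Ci * z) / 2 ^ g k := by
          have := abs_add_le (b k - eval b (Φ k)) (eval b (Φ k) - eval b (Φp k))
          rw [sub_add_sub_cancel] at this
          linarith only [this, a0, a2]
        have a5 : Real.exp (C₀ * z) + Real.exp (Ci * z) ≤ Real.exp ((C₀ + Ci + 1) * z) := by
          have b1 := two_exp (x := C₀ + Ci) (c := C₀ + Ci) hz1 le_rfl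
          have b2 : Real.exp (C₀ * z) ≤ Real.exp ((C₀ + Ci) * z) :=
            Real.exp_le_exp.2 (by nlinarith)
          have b3 : Real.exp (Ci * z) ≤ Real.exp ((C₀ + Ci) * z) :=
            Real.exp_le_exp.2 (by nlinarith)
          linarith only [b1, b2, b3]
        rw [← add_div] at a4
        refine a4.trans ?_
        have a6 : Real.exp (A * z) = Real.exp ((C₀ + Ci + 1) * z) * Real.exp (L * z) := by
          rw [← Real.exp_add]
          congr 1
          rw [hA]
          ring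
        rw [a6, mul_div_assoc, div_eq_mul_one_div (Real.exp (C₀ * z) + Real.exp (Ci * z))]
        exact mul_le_mul a5 a3 (by positivity) (Real.exp_pos _).le
      have hgr : ∀ x : ℝ, G * Real.exp (A * z) ^ E * (Real.exp (L * z) * x) =
          (G * Real.exp ((A * E + L) * z)) * x := by
        intro x
        rw [← Real.exp_nat_mul, add_mul, Real.exp_add]
        have : (E : ℝ) * (A * z) = A * E * z := by ring
        rw [this]
        ring
      have hGe : G * Real.exp ((A * E + L) * z) ≤ Real.exp ((G + A * E + L) * z) := by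
        have e1 : G ≤ Real.exp (G * z) := by
          have := Real.add_one_le_exp (G * z)
          nlinarith
        have e2 : Real.exp ((G + A * E + L) * z) = Real.exp (G * z) *
            Real.exp ((A * E + L) * z) := by
          rw [← Real.exp_add]
          congr 1
          ring
        rw [e2]
        exact mul_le_mul_of_nonneg_right e1 (Real.exp_pos _).le
      have key : ∀ (F : PN) (x : ℝ), 0 ≤ x → F.vars ⊆ range (m + 1) → F.totalDegree ≤ K →
          (∀ b : ℕ → ℝ, b 0 = t →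
            (∀ k, 1 ≤ k → k < m + 1 → |b k - eval b (Φp k)| ≤ 1 / 2 ^ gp k) →
            |eval b F| ≤ Real.exp (L * z) * x) →
          |eval b F| ≤ Real.exp ((G + A * E + L) * z) * x := by
        intro F x hx hv hF hS
        refine (hGr gp Φp F (Real.exp (L * z) * x) (Real.exp (A * z)) t hΦp
          (fun k hk => dΦp k (by omega)) (Real.one_le_exp (by positivity)) hv hF hS b hb0
          hbox).trans ?_
        rw [hgr]
        exact mul_le_mul_of_nonneg_right hGe hx
      refine ⟨fun k hk hkl => (hbox k hk hkl).trans (div_le_div_of_nonneg_right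
        (up A (by rw [hCf]; linarith)) (by positivity)), ?_, ?_⟩
      · have a1 := key (Φ (m + 1) - Φp (m + 1)) (1 / 2 ^ g (m + 1)) (by positivity)
          (AdxRow.vars_sub_le (hΦ _) (hΦp _))
          ((totalDegree_sub _ _).trans (max_le (dΦ _ hm) (dΦp _ hm))) (fun b' hb' hb1 => by
            rw [map_sub, mul_one_div]
            exact h1 (m + 1) hl hm b' hb' hb1)
        rw [map_sub, mul_one_div] at a1
        exact a1.trans (div_le_div_of_nonneg_right (up _ (by rw [hCf]; linarith)) (by positivity))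
      · have a1 := key (Φ (m + 1) - Φ' (m + 1)) (1 / 2 ^ g (m + 1) + 1 / 2 ^ g' (m + 1))
          (by positivity)
          (AdxRow.vars_sub_le (hΦ _) (hΦ' _))
          ((totalDegree_sub _ _).trans (max_le (dΦ _ hm) (dΦ' _ hm))) (fun b' hb' hb1 => by
            have e1 := h1 (m + 1) hl hm b' hb' hb1
            have e2 := h2 (m + 1) hl hm b' hb' hb1
            have e3 := abs_sub (eval b' (Φ (m + 1)) - eval b' (Φp (m + 1)))
              (eval b' (Φ' (m + 1)) - eval b' (Φp (m + 1)))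
            rw [sub_sub_sub_cancel_right] at e3
            rw [map_sub, mul_add, mul_one_div, mul_one_div]
            linarith only [e1, e2, e3])
        rw [map_sub] at a1
        refine a1.trans ?_
        have m1 : (1 : ℝ) / 2 ^ g (m + 1) ≤ 1 / 2 ^ min (g (m + 1)) (g' (m + 1)) :=
          one_div_le_one_div_of_le (by positivity)
            (pow_le_pow_right₀ (by norm_num) (min_le_left _ _))
        have m2 : (1 : ℝ) / 2 ^ g' (m + 1) ≤ 1 / 2 ^ min (g (m + 1)) (g' (m + 1)) :=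
          one_div_le_one_div_of_le (by positivity)
            (pow_le_pow_right₀ (by norm_num) (min_le_right _ _))
        have e4 := two_exp (x := G + A * E + L) (c := Ci + Cf - 1) hz1 (by rw [hCf]; linarith)
        rw [show Ci + Cf - 1 + 1 = Ci + Cf by ring] at e4
        rw [div_eq_mul_one_div (Real.exp ((Ci + Cf) * z))]
        have e5 : Real.exp ((G + A * E + L) * z) *
            (1 / 2 ^ g (m + 1) + 1 / 2 ^ g' (m + 1)) ≤ Real.exp ((G + A * E + L) * z) *
            (1 / 2 ^ min (g (m + 1)) (g' (m + 1)) + 1 / 2 ^ min (g (m + 1)) (g' (m + 1))) :=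
          mul_le_mul_of_nonneg_left (add_le_add m1 m2) (Real.exp_pos _).le
        have e6 : Real.exp ((G + A * E + L) * z) *
            (1 / 2 ^ min (g (m + 1)) (g' (m + 1)) + 1 / 2 ^ min (g (m + 1)) (g' (m + 1))) =
            (Real.exp ((G + A * E + L) * z) + Real.exp ((G + A * E + L) * z)) *
            (1 / 2 ^ min (g (m + 1)) (g' (m + 1))) := by ring
        rw [e6] at e5
        exact e5.trans (mul_le_mul_of_nonneg_right e4 (by positivity))
  exact main n le_rfl

end Pool.ADJ
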